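import Pool.Agent.Q151.Cov.Tri

/-!
# Coverings of the group of bounded triangular permutations
-/

set_option autoImplicit false

namespace Pool.Agent.Q151.Cov

/-- the partial orders on sequences: compare at the largest coordinate of difference -/
def lt (i : Fin 3) (x y : Sq) : Prop := ∃ m, (∀ k, m < k → x k = y k) ∧ Pos i ((x m)⁻¹ * y m)

lemma lt_irrefl' (i : Fin 3) (x : Sq) : ¬ lt i x x := by
  rintro ⟨m, -, h⟩
  rw [inv_mul_cancel] at h
  exact not_pos_one i h

lemma lt_trans' {i : Fin 3} {x y z : Sq} (h1 : lt i x y) (h2 : lt i y z) : lt i x z := by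
  obtain ⟨m, hm, hp⟩ := h1
  obtain ⟨n, hn, hq⟩ := h2
  rcases lt_trichotomy m n with h | h | h
  · exact ⟨n, fun k hk => (hm k (by omega)).trans (hn k hk), by rw [hm n h]; exact hq⟩
  · subst h
    refine ⟨m, fun k hk => (hm k hk).trans (hn k hk), ?_⟩
    have e : (x m)⁻¹ * z m = ((x m)⁻¹ * y m) * ((y m)⁻¹ * z m) := by group
    rw [e]
    exact pos_mul hp hq
  · exact ⟨m, fun k hk => (hm k hk).trans (hn k (by omega)), by rw [← hn m h]; exact hp⟩

lemma lt_inv {i : Fin 3} {g : Equiv.Perm Sq} (hg : g ∈ GG) {x y : Sq} (h : lt i x y) :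
    lt i (g x) (g y) := by
  obtain ⟨n, hg⟩ := hg
  obtain ⟨m, hm, hp⟩ := h
  refine ⟨m, K_agree hg hm, ?_⟩
  have h1 := K_tri hg hm
  have e : (g x m)⁻¹ * g y m = (x m)⁻¹ * y m := by
    have h2 : g x m = g y m * (y m)⁻¹ * x m := by
      rw [← h1]; group
    rw [h2]; group
  rw [e]
  exact hp

lemma lt_total {g : Equiv.Perm Sq} (hg : g ∈ GG) {x : Sq} (hx : g x ≠ x) :
    ∃ i, lt i x (g x) ∨ lt i (g x) x := by
  classical
  obtain ⟨n, hg⟩ := hg
  have hne : ((Finset.range n).filter (fun m => g x m ≠ x m)).Nonempty := by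
    by_contra hcon
    rw [Finset.not_nonempty_iff_eq_empty, Finset.filter_eq_empty_iff] at hcon
    apply hx
    funext m
    rcases Nat.lt_or_ge m n with h | h
    · by_contra hne
      exact hcon (Finset.mem_range.mpr h) hne
    · exact K_fix hg h
  obtain ⟨m, hm, hmax⟩ := Finset.exists_max_image _ id hne
  rw [Finset.mem_filter] at hm
  have hagree : ∀ k, m < k → x k = g x k := by
    intro k hk
    by_contra hcon
    rcases Nat.lt_or_ge k n with h | h
    · have := hmax k (Finset.mem_filter.mpr ⟨Finset.mem_range.mpr h, fun h' => hcon h'.symm⟩)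
      simp at this
      omega
    · exact hcon (K_fix hg h).symm
  have hne1 : (x m)⁻¹ * g x m ≠ 1 := by
    intro h
    rw [inv_mul_eq_one] at h
    exact hm.2 h.symm
  obtain ⟨i, h | h⟩ := pos_total hne1
  · exact ⟨i, Or.inl ⟨m, hagree, h⟩⟩
  · refine ⟨i, Or.inr ⟨m, fun k hk => (hagree k hk).symm, ?_⟩⟩
    rwa [mul_inv_rev, inv_inv] at h

/-- a well-ordering of the sequences -/
abbrev wo : Sq → Sq → Prop := WellOrderingRel

lemma wo_tri (x y : Sq) : wo x y ∨ x = y ∨ wo y x := trichotomous_of wo x y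

lemma wo_trans {x y z : Sq} (h1 : wo x y) (h2 : wo y z) : wo x z := _root_.trans h1 h2

/-- the semigroup of a transitive invariant relation -/
def Sem (L : Sq → Sq → Prop) (ht : ∀ x y z, L x y → L y z → L x z)
    (hi : ∀ g ∈ GG, ∀ x y, L x y → L (g x) (g y)) : Subsemigroup GG where
  carrier := {g | g = 1 ∨ ∃ x, (∀ y, wo y x → g.1 y = y) ∧ L x (g.1 x)}
  mul_mem' := by
    rintro g h (rfl | ⟨x, hx, hL⟩) (rfl | ⟨x', hx', hL'⟩)
    · left; simp
    · right; rw [one_mul]; exact ⟨x', hx', hL'⟩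
    · right; rw [mul_one]; exact ⟨x, hx, hL⟩
    · right
      rcases wo_tri x x' with hr | hr | hr
      · refine ⟨x, fun y hy => ?_, ?_⟩
        · show g.1 (h.1 y) = y
          rw [hx' y (wo_trans hy hr), hx y hy]
        · show L x (g.1 (h.1 x))
          rw [hx' x hr]; exact hL
      · subst hr
        refine ⟨x, fun y hy => ?_, ?_⟩
        · show g.1 (h.1 y) = y
          rw [hx' y hy, hx y hy]
        · exact ht _ _ _ hL (hi _ g.2 _ _ hL')
      · refine ⟨x', fun y hy => ?_, ?_⟩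
        · show g.1 (h.1 y) = y
          rw [hx' y hy, hx y (wo_trans hy hr)]
        · show L x' (g.1 (h.1 x'))
          have := hi _ g.2 _ _ hL'
          rwa [hx x' hr] at this

lemma Sem_proper (L : Sq → Sq → Prop) (ht : ∀ x y z, L x y → L y z → L x z)
    (hi : ∀ g ∈ GG, ∀ x y, L x y → L (g x) (g y)) (hir : ∀ x, ¬ L x x) :
    Sem L ht hi ≠ ⊤ := by
  intro htop
  -- a nontrivial element
  let g : GG := ⟨top 0 ga, ⟨1, top_mem 0 ga⟩⟩
  have hg1 : g ≠ 1 := by
    intro h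
    have h1 : g.1 (fun _ => 1) 0 = (1 : GG).1 (fun _ => 1) 0 := by rw [h]
    have h2 : g.1 (fun _ => 1) 0 = ga := by
      show top 0 ga (fun _ => 1) 0 = ga
      rw [top_same, mul_one]
    rw [h2] at h1
    have h3 : ga.1.x = (1 : Pr).1.x := congrArg (fun t : Pr => t.1.x) h1
    exact absurd h3 (by decide)
  have h1 : g ∈ Sem L ht hi := by rw [htop]; trivial
  have h2 : g⁻¹ ∈ Sem L ht hi := by rw [htop]; trivial
  have hginv : ∀ x, g.1 ((g⁻¹).1 x) = x := fun x => ai g.1 x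
  have hginv' : ∀ x, (g⁻¹).1 (g.1 x) = x := fun x => ia g.1 x
  rcases h1 with h1 | ⟨x, hx, hL⟩
  · exact hg1 h1
  rcases h2 with h2 | ⟨x', hx', hL'⟩
  · exact hg1 (inv_eq_one.mp h2)
  rcases wo_tri x x' with hr | hr | hr
  · have h3 := hx' x hr
    have h4 : g.1 x = x := by
      have := hginv x
      rwa [h3] at this
    rw [h4] at hL
    exact hir x hL
  · subst hr
    have h3 := hi _ g.2 _ _ hL'
    rw [hginv] at h3
    exact hir x (ht _ _ _ hL h3)
  · have h3 := hx x' hr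
    have h4 : (g⁻¹).1 x' = x' := by
      have := hginv' x'
      rwa [h3] at this
    rw [h4] at hL'
    exact hir x' hL'

lemma exists_first {g : GG} (hg : g ≠ 1) : ∃ x, (∀ y, wo y x → g.1 y = y) ∧ g.1 x ≠ x := by
  have hne : {x | g.1 x ≠ x}.Nonempty := by
    by_contra hcon
    apply hg
    apply Subtype.ext
    ext x : 1
    by_contra h
    exact hcon ⟨x, h⟩
  have wf : WellFounded wo := IsWellFounded.wf
  refine ⟨wf.min _ hne, fun y hy => ?_, wf.min_mem _ hne⟩
  by_contra h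
  exact wf.not_lt_min _ h hy

/-- the six semigroups -/
def S6 (j : Fin 3 × Fin 2) : Subsemigroup GG :=
  if j.2 = 0 then
    Sem (fun x y => lt j.1 x y) (fun _ _ _ => lt_trans') (fun _ hg _ _ => lt_inv hg)
  else
    Sem (fun x y => lt j.1 y x) (fun _ _ _ h1 h2 => lt_trans' h2 h1) (fun _ hg _ _ => lt_inv hg)

lemma S6_proper (j : Fin 3 × Fin 2) : S6 j ≠ ⊤ := by
  unfold S6
  split_ifs
  · exact Sem_proper _ _ _ (lt_irrefl' _)
  · exact Sem_proper _ _ _ (lt_irrefl' _)

lemma S6_one (j : Fin 3 × Fin 2) : (1 : GG) ∈ S6 j := by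
  unfold S6
  split_ifs
  · exact Or.inl rfl
  · exact Or.inl rfl

lemma S6_cover (g : GG) : ∃ j, g ∈ S6 j := by
  by_cases hg : g = 1
  · exact ⟨(0, 0), by rw [hg]; exact S6_one _⟩
  obtain ⟨x, hx, hne⟩ := exists_first hg
  obtain ⟨i, h | h⟩ := lt_total g.2 hne
  · refine ⟨(i, 0), ?_⟩
    unfold S6
    rw [if_pos rfl]
    exact Or.inr ⟨x, hx, h⟩
  · refine ⟨(i, 1), ?_⟩
    unfold S6
    rw [if_neg (by simp)]
    exact Or.inr ⟨x, hx, h⟩

/-- the copies of the Promislow group inside `GG` -/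
def topG (n : ℕ) : Pr →* GG :=
  (top n).codRestrict GG (fun p => ⟨n + 1, top_mem n p⟩)

lemma comm_GG (h : GG) : ∃ n : ℕ, ∀ k : ℕ, 0 < k →
    ∃ f : GG, f * topG n (gq 1) ^ k * f⁻¹ * (topG n (gq 1) ^ k)⁻¹ = h := by
  obtain ⟨n, hn⟩ := h.2
  refine ⟨n, fun k hk => ?_⟩
  obtain ⟨f, hf, he⟩ := exists_comm hn (k := (k : ℤ)) (by exact_mod_cast hk)
  refine ⟨⟨f, ⟨n, hf⟩⟩, ?_⟩
  apply Subtype.ext
  rw [← map_pow, gq_one_pow]
  exact he

/-- there are no proper total subsemigroups -/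
lemma total_top {S : Subsemigroup GG} (hS : ∀ g : GG, g ∈ S ∨ g⁻¹ ∈ S) : S = ⊤ := by
  rw [eq_top_iff]
  intro h _
  obtain ⟨n, hn⟩ := comm_GG h
  obtain ⟨f, hf⟩ := hn 1 one_pos
  rw [pow_one] at hf
  have hp : PPair (topG n ga) (topG n gb) := ppair_gen.map (topG n)
  have h1 := (ppair_total hS hp).2
  have h2 := (ppair_total hS (hp.map (MulAut.conj f).toMonoidHom)).1
  have h3 : f * topG n (gq 1) * f⁻¹ ∈ S := by
    rw [← ga_sq, map_mul]
    have e : f * (topG n ga * topG n ga) * f⁻¹ = (f * topG n ga * f⁻¹) * (f * topG n ga * f⁻¹) := by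
      group
    rw [e]
    exact S.mul_mem h2 h2
  have h4 : (topG n (gq 1))⁻¹ ∈ S := by
    rw [← ga_sq, map_mul, mul_inv_rev]
    exact S.mul_mem h1 h1
  rw [← hf]
  exact S.mul_mem h3 h4

/-- two proper subsemigroups do not cover -/
lemma two_cover {A B : Subsemigroup GG} (hA : A ≠ ⊤) (hB : B ≠ ⊤) (h : ∀ g, g ∈ A ∨ g ∈ B) :
    False := by
  by_cases hc : ∀ x, x ∉ B → x⁻¹ ∈ B
  · apply hB
    apply total_top
    intro g
    by_cases hg : g ∈ B
    · exact Or.inl hg
    · exact Or.inr (hc g hg)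
  · push Not at hc
    obtain ⟨x, hx, hx'⟩ := hc
    have hxA' : x⁻¹ ∈ A := (h x⁻¹).resolve_right hx'
    apply hA
    apply total_top
    intro y
    by_cases hy : y ∈ A
    · exact Or.inl hy
    right
    have h1 : x * y ∉ A := by
      intro h1
      apply hy
      have := A.mul_mem hxA' h1
      rwa [inv_mul_cancel_left] at this
    have h2 : x * y ∈ B := (h _).resolve_left h1
    by_contra h3
    have h4 : y⁻¹ ∈ B := (h _).resolve_left h3
    apply hx
    have := B.mul_mem h2 h4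
    rwa [mul_inv_cancel_right] at this

/-- there are no proper subgroups of finite index -/
lemma finiteIndex_top (H : Subgroup GG) [H.FiniteIndex] : H = ⊤ := by
  rw [eq_top_iff]
  intro h _
  apply H.normalCore_le
  obtain ⟨n, hn⟩ := comm_GG h
  have hpos : 0 < H.normalCore.index := Nat.pos_of_ne_zero Subgroup.FiniteIndex.index_ne_zero
  obtain ⟨f, hf⟩ := hn _ hpos
  have h1 : topG n (gq 1) ^ H.normalCore.index ∈ H.normalCore :=
    Subgroup.pow_index_mem _ _
  rw [← hf]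
  exact H.normalCore.mul_mem (Subgroup.normalCore_normal H |>.conj_mem _ h1 f)
    (H.normalCore.inv_mem h1)

end Pool.Agent.Q151.Cov
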