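import Mathlib

/-!
# The Promislow (Hantzsche-Wendt) group with three partial orders
-/

set_option autoImplicit false

namespace Pool.Agent.Q151.Cov

/-- the sign `(-1) ^ n` -/
def sg (n : ℤ) : ℤ := if n % 2 = 0 then 1 else -1

lemma sg_cases (n : ℤ) : (sg n = 1 ∧ n % 2 = 0) ∨ (sg n = -1 ∧ n % 2 = 1) := by
  unfold sg
  split_ifs with h
  · exact Or.inl ⟨rfl, h⟩
  · exact Or.inr ⟨rfl, by omega⟩

lemma sg_mul (a b c : ℤ) : sg (a + sg c * b) = sg a * sg b := by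
  rcases sg_cases a with ⟨h1, h2⟩ | ⟨h1, h2⟩ <;> rcases sg_cases b with ⟨h3, h4⟩ | ⟨h3, h4⟩ <;>
    rcases sg_cases c with ⟨h5, h6⟩ | ⟨h5, h6⟩ <;>
    rcases sg_cases (a + sg c * b) with ⟨h7, h8⟩ | ⟨h7, h8⟩ <;>
    rw [h7, h1, h3] <;> rw [h5] at h8 <;> omega

lemma sg_neg (b c : ℤ) : sg (-(sg c * b)) = sg b := by
  rcases sg_cases b with ⟨h3, h4⟩ | ⟨h3, h4⟩ <;>
    rcases sg_cases c with ⟨h5, h6⟩ | ⟨h5, h6⟩ <;>
    rcases sg_cases (-(sg c * b)) with ⟨h7, h8⟩ | ⟨h7, h8⟩ <;>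
    rw [h7, h3] <;> rw [h5] at h8 <;> omega

lemma sg_sq (n : ℤ) : sg n * sg n = 1 := by
  rcases sg_cases n with ⟨h, _⟩ | ⟨h, _⟩ <;> rw [h] <;> norm_num

/-- the set `ℤ³` with the multiplication of a crystallographic group -/
@[ext]
structure Ph where
  /-- first coordinate -/
  x : ℤ
  /-- second coordinate -/
  y : ℤ
  /-- third coordinate -/
  z : ℤ

namespace Ph

instance : Mul Ph := ⟨fun t s => ⟨t.x + sg t.z * s.x, t.y + sg t.x * s.y, t.z + sg t.y * s.z⟩⟩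
instance : One Ph := ⟨⟨0, 0, 0⟩⟩
instance : Inv Ph := ⟨fun t => ⟨-(sg t.z * t.x), -(sg t.x * t.y), -(sg t.y * t.z)⟩⟩

@[simp] lemma mul_x (t s : Ph) : (t * s).x = t.x + sg t.z * s.x := rfl
@[simp] lemma mul_y (t s : Ph) : (t * s).y = t.y + sg t.x * s.y := rfl
@[simp] lemma mul_z (t s : Ph) : (t * s).z = t.z + sg t.y * s.z := rfl
@[simp] lemma one_x : (1 : Ph).x = 0 := rfl
@[simp] lemma one_y : (1 : Ph).y = 0 := rfl
@[simp] lemma one_z : (1 : Ph).z = 0 := rfl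
@[simp] lemma inv_x (t : Ph) : (t⁻¹).x = -(sg t.z * t.x) := rfl
@[simp] lemma inv_y (t : Ph) : (t⁻¹).y = -(sg t.x * t.y) := rfl
@[simp] lemma inv_z (t : Ph) : (t⁻¹).z = -(sg t.y * t.z) := rfl

lemma sg_zero : sg 0 = 1 := by decide

instance : Group Ph := Group.ofLeftAxioms
  (by
    intro a b c
    ext
    · simp only [mul_x, mul_z, sg_mul]; ring
    · simp only [mul_x, mul_y, sg_mul]; ring
    · simp only [mul_y, mul_z, sg_mul]; ring)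
  (by
    intro a
    ext <;> simp [sg_zero])
  (by
    intro a
    ext <;> simp [sg_neg])

end Ph

/-- the Promislow group: triples with even sum -/
def Pr : Subgroup Ph where
  carrier := {t | (t.x + t.y + t.z) % 2 = 0}
  one_mem' := by simp
  mul_mem' := by
    intro a b ha hb
    simp only [Set.mem_setOf_eq, Ph.mul_x, Ph.mul_y, Ph.mul_z] at *
    rcases sg_cases a.x with ⟨h1, -⟩ | ⟨h1, -⟩ <;> rcases sg_cases a.y with ⟨h2, -⟩ | ⟨h2, -⟩ <;>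
      rcases sg_cases a.z with ⟨h3, -⟩ | ⟨h3, -⟩ <;> rw [h1, h2, h3] <;> omega
  inv_mem' := by
    intro a ha
    simp only [Set.mem_setOf_eq, Ph.inv_x, Ph.inv_y, Ph.inv_z] at *
    rcases sg_cases a.x with ⟨h1, -⟩ | ⟨h1, -⟩ <;> rcases sg_cases a.y with ⟨h2, -⟩ | ⟨h2, -⟩ <;>
      rcases sg_cases a.z with ⟨h3, -⟩ | ⟨h3, -⟩ <;> rw [h1, h2, h3] <;> omega

/-- the three positive cones -/
def Pos (i : Fin 3) (t : Pr) : Prop :=
  match i with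
  | 0 => sg t.1.z = 1 ∧ 0 < t.1.x
  | 1 => sg t.1.x = 1 ∧ 0 < t.1.y
  | 2 => sg t.1.y = 1 ∧ 0 < t.1.z

lemma pos_mul {i : Fin 3} {s t : Pr} (hs : Pos i s) (ht : Pos i t) : Pos i (s * t) := by
  fin_cases i
  · obtain ⟨h1, h2⟩ := hs
    obtain ⟨h3, h4⟩ := ht
    refine ⟨?_, ?_⟩
    · show sg (s.1 * t.1).z = 1
      rw [Ph.mul_z, sg_mul, h1, h3, one_mul]
    · show 0 < (s.1 * t.1).x
      rw [Ph.mul_x, h1, one_mul]; omega
  · obtain ⟨h1, h2⟩ := hs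
    obtain ⟨h3, h4⟩ := ht
    refine ⟨?_, ?_⟩
    · show sg (s.1 * t.1).x = 1
      rw [Ph.mul_x, sg_mul, h1, h3, one_mul]
    · show 0 < (s.1 * t.1).y
      rw [Ph.mul_y, h1, one_mul]; omega
  · obtain ⟨h1, h2⟩ := hs
    obtain ⟨h3, h4⟩ := ht
    refine ⟨?_, ?_⟩
    · show sg (s.1 * t.1).y = 1
      rw [Ph.mul_y, sg_mul, h1, h3, one_mul]
    · show 0 < (s.1 * t.1).z
      rw [Ph.mul_z, h1, one_mul]; omega

lemma not_pos_one (i : Fin 3) : ¬ Pos i 1 := by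
  fin_cases i
  · rintro ⟨-, h⟩; exact lt_irrefl (0 : ℤ) h
  · rintro ⟨-, h⟩; exact lt_irrefl (0 : ℤ) h
  · rintro ⟨-, h⟩; exact lt_irrefl (0 : ℤ) h

lemma pos_total {t : Pr} (ht : t ≠ 1) : ∃ i, Pos i t ∨ Pos i t⁻¹ := by
  have hev : (t.1.x + t.1.y + t.1.z) % 2 = 0 := t.2
  have hne : ¬ (t.1.x = 0 ∧ t.1.y = 0 ∧ t.1.z = 0) := by
    rintro ⟨h1, h2, h3⟩
    apply ht
    ext <;> assumption
  -- the three comparisons
  have c0 : sg t.1.z = 1 → t.1.x ≠ 0 → ∃ i, Pos i t ∨ Pos i t⁻¹ := by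
    intro h1 h2
    rcases lt_or_gt_of_ne h2 with h | h
    · refine ⟨0, Or.inr ⟨?_, ?_⟩⟩
      · show sg (t.1⁻¹).z = 1
        rw [Ph.inv_z, sg_neg, h1]
      · show 0 < (t.1⁻¹).x
        rw [Ph.inv_x, h1]; omega
    · exact ⟨0, Or.inl ⟨h1, h⟩⟩
  have c1 : sg t.1.x = 1 → t.1.y ≠ 0 → ∃ i, Pos i t ∨ Pos i t⁻¹ := by
    intro h1 h2
    rcases lt_or_gt_of_ne h2 with h | h
    · refine ⟨1, Or.inr ⟨?_, ?_⟩⟩
      · show sg (t.1⁻¹).x = 1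
        rw [Ph.inv_x, sg_neg, h1]
      · show 0 < (t.1⁻¹).y
        rw [Ph.inv_y, h1]; omega
    · exact ⟨1, Or.inl ⟨h1, h⟩⟩
  have c2 : sg t.1.y = 1 → t.1.z ≠ 0 → ∃ i, Pos i t ∨ Pos i t⁻¹ := by
    intro h1 h2
    rcases lt_or_gt_of_ne h2 with h | h
    · refine ⟨2, Or.inr ⟨?_, ?_⟩⟩
      · show sg (t.1⁻¹).y = 1
        rw [Ph.inv_y, sg_neg, h1]
      · show 0 < (t.1⁻¹).z
        rw [Ph.inv_z, h1]; omega
    · exact ⟨2, Or.inl ⟨h1, h⟩⟩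
  rcases sg_cases t.1.x with ⟨hx, hx'⟩ | ⟨hx, hx'⟩ <;>
    rcases sg_cases t.1.y with ⟨hy, hy'⟩ | ⟨hy, hy'⟩ <;>
    rcases sg_cases t.1.z with ⟨hz, hz'⟩ | ⟨hz, hz'⟩
  · by_cases h : t.1.x = 0
    · by_cases h' : t.1.y = 0
      · exact c2 hy fun h'' => hne ⟨h, h', h''⟩
      · exact c1 hx h'
    · exact c0 hz h
  · omega
  · omega
  · exact c1 hx (by omega)
  · omega
  · exact c2 hy (by omega)
  · exact c0 hz (by omega)
  · omega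

/-- the generator `a` -/
def ga : Pr := ⟨⟨1, 1, 0⟩, by show ((1 : ℤ) + 1 + 0) % 2 = 0; norm_num⟩

/-- the generator `b` -/
def gb : Pr := ⟨⟨0, 1, 1⟩, by show ((0 : ℤ) + 1 + 1) % 2 = 0; norm_num⟩

/-- the element `a ^ (2 k) = (2 k, 0, 0)` -/
def gq (k : ℤ) : Pr := ⟨⟨2 * k, 0, 0⟩, by
  show (2 * k + 0 + 0) % 2 = 0
  omega⟩

lemma gq_mul (k l : ℤ) : gq k * gq l = gq (k + l) := by
  ext
  · show 2 * k + sg 0 * (2 * l) = 2 * (k + l)
    rw [Ph.sg_zero]; ring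
  · show 0 + sg (2 * k) * 0 = 0
    ring
  · show 0 + sg 0 * 0 = 0
    ring

lemma gq_zero : gq 0 = 1 := rfl

lemma gq_one_pow (k : ℕ) : gq 1 ^ k = gq k := by
  induction k with
  | zero => simp [gq_zero]
  | succ k ih => rw [pow_succ, ih, gq_mul]; push_cast; rfl

lemma ga_sq : ga * ga = gq 1 := by
  ext <;> decide

/-- pairs of elements satisfying the relations which obstruct total orders -/
def PPair {G : Type*} [Group G] (a b : G) : Prop :=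
  (a * b) * (a * b) * ((b * a) * (b * a)) = 1 ∧
  (a * b⁻¹) * (a * b⁻¹) * ((b⁻¹ * a) * (b⁻¹ * a)) = 1 ∧
  (a⁻¹ * b) * (a⁻¹ * b) * ((b * a⁻¹) * (b * a⁻¹)) = 1 ∧
  (a⁻¹ * b⁻¹) * (a⁻¹ * b⁻¹) * ((b⁻¹ * a⁻¹) * (b⁻¹ * a⁻¹)) = 1

lemma ppair_gen : PPair ga gb := by
  refine ⟨?_, ?_, ?_, ?_⟩ <;> ext <;> decide

lemma PPair.map {G H : Type*} [Group G] [Group H] (f : G →* H) {a b : G} (h : PPair a b) :
    PPair (f a) (f b) := by
  obtain ⟨h1, h2, h3, h4⟩ := h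
  refine ⟨?_, ?_, ?_, ?_⟩
  · simpa using congrArg f h1
  · simpa using congrArg f h2
  · simpa using congrArg f h3
  · simpa using congrArg f h4

/-- total subsemigroups contain the inverses of the elements of such pairs -/
lemma ppair_total {G : Type*} [Group G] {S : Subsemigroup G} (hS : ∀ g : G, g ∈ S ∨ g⁻¹ ∈ S)
    {a b : G} (h : PPair a b) : a ∈ S ∧ a⁻¹ ∈ S := by
  have key : ∀ α β : G, α ∈ S → β ∈ S →
      (α * β) * (α * β) * ((β * α) * (β * α)) = 1 → α⁻¹ ∈ S := by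
    intro α β hα hβ h1
    have h2 : α⁻¹ = β * (α * β) * ((β * α) * (β * α)) := by
      rw [inv_eq_iff_mul_eq_one]
      rw [← h1]
      group
    rw [h2]
    exact S.mul_mem (S.mul_mem hβ (S.mul_mem hα hβ))
      (S.mul_mem (S.mul_mem hβ hα) (S.mul_mem hβ hα))
  obtain ⟨h1, h2, h3, h4⟩ := h
  rcases hS a with ha | ha <;> rcases hS b with hb | hb
  · exact ⟨ha, key a b ha hb h1⟩
  · exact ⟨ha, key a b⁻¹ ha hb h2⟩
  · exact ⟨by simpa using key a⁻¹ b ha hb h3, ha⟩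
  · exact ⟨by simpa using key a⁻¹ b⁻¹ ha hb h4, ha⟩

end Pool.Agent.Q151.Cov
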