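import Pool.Agent.Q151.Cov.Prom

/-!
# Bounded triangular permutations of the sequences in the Promislow group
-/

set_option autoImplicit false

namespace Pool.Agent.Q151.Cov

/-- sequences -/
abbrev Sq := ℕ → Pr

lemma ai (g : Equiv.Perm Sq) (x : Sq) : g (g⁻¹ x) = x := g.apply_symm_apply x

lemma ia (g : Equiv.Perm Sq) (x : Sq) : g⁻¹ (g x) = x := g.symm_apply_apply x

/-- triangular permutations fixing all coordinates `≥ n` -/
def K (n : ℕ) : Subgroup (Equiv.Perm Sq) where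
  carrier := {g | (∀ x m, n ≤ m → g x m = x m) ∧
    ∀ m x y, (∀ k, m < k → x k = y k) → g x m * (x m)⁻¹ = g y m * (y m)⁻¹}
  one_mem' := by
    refine ⟨fun x m _ => rfl, fun m x y _ => ?_⟩
    simp
  mul_mem' := by
    rintro g h ⟨g1, g2⟩ ⟨h1, h2⟩
    refine ⟨fun x m hm => ?_, fun m x y hxy => ?_⟩
    · show g (h x) m = x m
      rw [g1 _ _ hm, h1 _ _ hm]
    · show g (h x) m * (x m)⁻¹ = g (h y) m * (y m)⁻¹
      have e1 : ∀ k, m < k → h x k = h y k := by
        intro k hk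
        have := h2 k x y (fun k' hk' => hxy k' (by omega))
        rw [hxy k hk] at this
        exact mul_right_cancel this
      have e2 := g2 m (h x) (h y) e1
      have e3 := h2 m x y hxy
      calc g (h x) m * (x m)⁻¹ = (g (h x) m * (h x m)⁻¹) * (h x m * (x m)⁻¹) := by group
        _ = (g (h y) m * (h y m)⁻¹) * (h y m * (y m)⁻¹) := by rw [e2, e3]
        _ = _ := by group
  inv_mem' := by
    rintro g ⟨g1, g2⟩
    have i1 : ∀ x m, n ≤ m → g⁻¹ x m = x m := by
      intro x m hm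
      have := g1 (g⁻¹ x) m hm
      rw [ai] at this
      exact this.symm
    refine ⟨i1, fun m x y hxy => ?_⟩
    have key : ∀ j k, m < k → n ≤ k + j → g⁻¹ x k = g⁻¹ y k := by
      intro j
      induction j with
      | zero =>
        intro k hk hn
        rw [i1 x k (by omega), i1 y k (by omega)]
        exact hxy k hk
      | succ j ih =>
        intro k hk hn
        have h1 := g2 k (g⁻¹ x) (g⁻¹ y) (fun k' hk' => ih k' (by omega) (by omega))
        rw [ai, ai, hxy k hk] at h1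
        exact inv_injective (mul_left_cancel h1)
    have h1 := g2 m (g⁻¹ x) (g⁻¹ y) (fun k hk => key n k hk (by omega))
    rw [ai, ai] at h1
    have h2 := congrArg (fun t => t⁻¹) h1
    simpa using h2

lemma K_fix {n : ℕ} {g : Equiv.Perm Sq} (hg : g ∈ K n) {x : Sq} {m : ℕ} (hm : n ≤ m) :
    g x m = x m := hg.1 x m hm

lemma K_tri {n : ℕ} {g : Equiv.Perm Sq} (hg : g ∈ K n) {m : ℕ} {x y : Sq}
    (h : ∀ k, m < k → x k = y k) : g x m * (x m)⁻¹ = g y m * (y m)⁻¹ := hg.2 m x y h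

lemma K_agree {n : ℕ} {g : Equiv.Perm Sq} (hg : g ∈ K n) {m : ℕ} {x y : Sq}
    (h : ∀ k, m < k → x k = y k) : ∀ k, m < k → g x k = g y k := by
  intro k hk
  have := K_tri hg (m := k) (x := x) (y := y) (fun k' hk' => h k' (by omega))
  rw [h k hk] at this
  exact mul_right_cancel this

lemma K_mono {m n : ℕ} (h : m ≤ n) : K m ≤ K n := by
  intro g hg
  exact ⟨fun x k hk => hg.1 x k (by omega), hg.2⟩

/-- `K n` is normalised by `K m` for `m ≤ n + 1` -/
lemma K_conj {n : ℕ} {g h : Equiv.Perm Sq} (hg : g ∈ K (n + 1)) (hh : h ∈ K n) :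
    g * h * g⁻¹ ∈ K n := by
  have hh' : h ∈ K (n + 1) := K_mono (Nat.le_succ n) hh
  have hmem : g * h * g⁻¹ ∈ K (n + 1) := (K (n + 1)).mul_mem ((K (n + 1)).mul_mem hg hh')
    ((K (n + 1)).inv_mem hg)
  refine ⟨fun x m hm => ?_, hmem.2⟩
  rcases Nat.lt_or_ge m (n + 1) with hlt | hge
  · have hmn : m = n := by omega
    subst hmn
    have hginv := (K (m + 1)).inv_mem hg
    -- the points `h (g⁻¹ x)` and `g⁻¹ x` agree from `m` on
    have e1 : ∀ k, m ≤ k → h (g⁻¹ x) k = g⁻¹ x k := fun k hk => K_fix hh hk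
    have e2 := K_tri hg (m := m) (x := h (g⁻¹ x)) (y := g⁻¹ x) (fun k hk => e1 k (by omega))
    rw [e1 m le_rfl, ai] at e2
    exact mul_right_cancel e2
  · exact K_fix hmem hge

/-- the group `G` of bounded triangular permutations -/
def GG : Subgroup (Equiv.Perm Sq) where
  carrier := {g | ∃ n, g ∈ K n}
  one_mem' := ⟨0, (K 0).one_mem⟩
  mul_mem' := by
    rintro g h ⟨m, hg⟩ ⟨n, hh⟩
    exact ⟨max m n, (K _).mul_mem (K_mono (le_max_left _ _) hg) (K_mono (le_max_right _ _) hh)⟩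
  inv_mem' := by
    rintro g ⟨m, hg⟩
    exact ⟨m, (K _).inv_mem hg⟩

/-- the copy of the Promislow group acting on the `n`-th coordinate -/
def top (n : ℕ) : Pr →* Equiv.Perm Sq where
  toFun p :=
    { toFun := fun x => Function.update x n (p * x n)
      invFun := fun x => Function.update x n (p⁻¹ * x n)
      left_inv := by intro x; simp
      right_inv := by intro x; simp }
  map_one' := by ext x : 1; simp
  map_mul' := by
    intro p q
    ext x : 1
    simp [mul_assoc]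

lemma top_apply (n : ℕ) (p : Pr) (x : Sq) : top n p x = Function.update x n (p * x n) := rfl

lemma top_same (n : ℕ) (p : Pr) (x : Sq) : top n p x n = p * x n := by simp [top_apply]

lemma top_ne {n m : ℕ} (h : m ≠ n) (p : Pr) (x : Sq) : top n p x m = x m := by
  simp [top_apply, h]

lemma top_mem (n : ℕ) (p : Pr) : top n p ∈ K (n + 1) := by
  refine ⟨fun x m hm => top_ne (by omega) p x, fun m x y _ => ?_⟩
  by_cases h : m = n
  · subst h
    rw [top_same, top_same]
    group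
  · rw [top_ne h, top_ne h]
    group

/-- the exponent -/
def kap (n : ℕ) (k : ℤ) (x : Sq) : ℤ := (x n).1.x / (2 * k)

lemma kap_top {n : ℕ} {k : ℤ} (hk : 0 < k) (x : Sq) :
    kap n k (top n (gq k) x) = kap n k x + 1 := by
  unfold kap
  rw [top_same]
  have : (gq k * x n).1.x = (x n).1.x + 1 * (2 * k) := by
    show 2 * k + sg 0 * (x n).1.x = _
    rw [Ph.sg_zero]; ring
  rw [this, Int.add_mul_ediv_right _ _ (by omega)]

/-- piecewise defined elements of `K n` -/
def pw {n : ℕ} (F : ℤ → Equiv.Perm Sq) (hF : ∀ j, F j ∈ K n) (κ : Pr → ℤ) : Equiv.Perm Sq where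
  toFun x := F (κ (x n)) x
  invFun x := (F (κ (x n)))⁻¹ x
  left_inv := by
    intro x
    simp only
    rw [K_fix (hF _) le_rfl, ia]
  right_inv := by
    intro x
    simp only
    rw [K_fix ((K n).inv_mem (hF _)) le_rfl, ai]

lemma pw_mem {n : ℕ} (F : ℤ → Equiv.Perm Sq) (hF : ∀ j, F j ∈ K n) (κ : Pr → ℤ) :
    pw F hF κ ∈ K n := by
  refine ⟨fun x m hm => K_fix (hF _) hm, fun m x y hxy => ?_⟩
  show F (κ (x n)) x m * (x m)⁻¹ = F (κ (y n)) y m * (y m)⁻¹
  rcases Nat.lt_or_ge m n with h | h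
  · rw [hxy n h]
    exact K_tri (hF _) hxy
  · rw [K_fix (hF _) h, K_fix (hF _) h]
    group

/-- every element of `K n` is a commutator with the translation of the `n`-th coordinate -/
lemma exists_comm {n : ℕ} {h : Equiv.Perm Sq} (hh : h ∈ K n) {k : ℤ} (hk : 0 < k) :
    ∃ f ∈ K n, f * top n (gq k) * f⁻¹ * (top n (gq k))⁻¹ = h := by
  set Q := top n (gq k) with hQ
  have hQm : Q ∈ K (n + 1) := top_mem n _
  have hF : ∀ j : ℤ, (h * Q) ^ j * Q ^ (-j) ∈ K n := by
    intro j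
    induction j using Int.induction_on with
    | zero => simpa using (K n).one_mem
    | succ j ih =>
      have e : (h * Q) ^ ((j : ℤ) + 1) * Q ^ (-((j : ℤ) + 1))
          = h * (Q * ((h * Q) ^ (j : ℤ) * Q ^ (-(j : ℤ))) * Q⁻¹) := by
        have e1 : (h * Q) ^ ((j : ℤ) + 1) = (h * Q) * (h * Q) ^ (j : ℤ) := by
          rw [show (j : ℤ) + 1 = 1 + j by ring, zpow_add, zpow_one]
        have e2 : Q ^ (-((j : ℤ) + 1)) = Q ^ (-(j : ℤ)) * Q⁻¹ := by
          rw [neg_add, zpow_add, zpow_neg_one]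
        rw [e1, e2]
        simp only [mul_assoc]
      rw [e]
      exact (K n).mul_mem hh (K_conj hQm ih)
    | pred j ih =>
      have e : (h * Q) ^ (-(j : ℤ) - 1) * Q ^ (-(-(j : ℤ) - 1))
          = Q⁻¹ * (h⁻¹ * ((h * Q) ^ (-(j : ℤ)) * Q ^ (-(-(j : ℤ))))) * (Q⁻¹)⁻¹ := by
        have e1 : (h * Q) ^ (-(j : ℤ) - 1) = (h * Q)⁻¹ * (h * Q) ^ (-(j : ℤ)) := by
          rw [show -(j : ℤ) - 1 = -1 + -(j : ℤ) by ring, zpow_add, zpow_neg_one]
        have e2 : Q ^ (-(-(j : ℤ) - 1)) = Q ^ (-(-(j : ℤ))) * Q := by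
          rw [show -(-(j : ℤ) - 1) = -(-(j : ℤ)) + 1 by ring, zpow_add, zpow_one]
        rw [e1, e2]
        group
      rw [e]
      exact K_conj ((K (n + 1)).inv_mem hQm) ((K n).mul_mem ((K n).inv_mem hh) ih)
  let f := pw (fun j => (h * Q) ^ j * Q ^ (-j)) hF (fun p => p.1.x / (2 * k))
  refine ⟨f, pw_mem _ _ _, ?_⟩
  rw [mul_inv_eq_iff_eq_mul, mul_inv_eq_iff_eq_mul]
  ext x : 1
  show (((h * Q) ^ (kap n k (Q x)) * Q ^ (-(kap n k (Q x)))) (Q x))
    = h (Q (((h * Q) ^ (kap n k x) * Q ^ (-(kap n k x))) x))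
  rw [kap_top hk]
  set j := kap n k x
  have e : (h * Q) ^ (j + 1) * Q ^ (-(j + 1)) * Q = h * Q * ((h * Q) ^ j * Q ^ (-j)) := by
    rw [show j + 1 = 1 + j by ring, zpow_add, zpow_one, neg_add, zpow_add, zpow_neg_one]
    have : Q⁻¹ * Q ^ (-j) * Q = Q ^ (-j) := by
      rw [← zpow_neg_one, ← zpow_add, ← zpow_add_one]
      congr 1
      ring
    calc h * Q * (h * Q) ^ j * (Q⁻¹ * Q ^ (-j)) * Q
        = h * Q * (h * Q) ^ j * (Q⁻¹ * Q ^ (-j) * Q) := by group
      _ = h * Q * (h * Q) ^ j * Q ^ (-j) := by rw [this]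
      _ = _ := by group
  have := congrArg (fun g : Equiv.Perm Sq => g x) e
  exact this

end Pool.Agent.Q151.Cov
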